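import Mathlib

open Filter Topology Finset

namespace Pool.Agent.Results.MP_8a0632_lc.NotErdosUlam

/-- `I` is an ideal on `ℕ`: proper, containing all finite sets, closed under finite unions
and subsets. -/
def IsIdealOnNat (I : Set (Set ℕ)) : Prop :=
  Set.univ ∉ I ∧ (∀ A : Set ℕ, A.Finite → A ∈ I) ∧
    (∀ A B : Set ℕ, A ∈ I → B ∈ I → A ∪ B ∈ I) ∧
    (∀ A B : Set ℕ, A ⊆ B → B ∈ I → A ∈ I)

/-- The density zero ideal. -/
def ZZ : Set (Set ℕ) :=
  {A | Tendsto (fun n : ℕ => ((A ∩ Set.Iio n).ncard : ℝ) / (n : ℝ)) atTop (𝓝 0)}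

/-- `f` is an Erdős–Ulam weight. -/
def IsEUWeight (f : ℕ → ℝ) : Prop :=
  (∀ n, 0 ≤ f n) ∧ Tendsto (fun n : ℕ => ∑ i ∈ range n, f i) atTop atTop ∧
    Tendsto (fun n : ℕ => f n / ∑ i ∈ range (n + 1), f i) atTop (𝓝 0)

open Classical in
/-- The ideal `EU_f`. -/
noncomputable def EU (f : ℕ → ℝ) : Set (Set ℕ) :=
  {A | Tendsto (fun n : ℕ => (∑ i ∈ (range n).filter (fun i => i ∈ A), f i) /
    (∑ i ∈ range n, f i)) atTop (𝓝 0)}

/-- `I` is an Erdős–Ulam ideal. -/
def IsErdosUlam (I : Set (Set ℕ)) : Prop := ∃ f : ℕ → ℝ, IsEUWeight f ∧ I = EU f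

/-- The Rudin–Blass order. -/
def RB (I J : Set (Set ℕ)) : Prop :=
  ∃ φ : ℕ → ℕ, (∀ n, (φ ⁻¹' {n}).Finite) ∧ ∀ A : Set ℕ, A ∈ I ↔ φ ⁻¹' A ∈ J

/-! ### A selector lemma -/

section Selector

variable (cls : ℕ → Option ℤ) (M : ℕ)

/-- rank of `y` inside its class -/
def rk (y : ℕ) : ℕ := ((range y).filter (fun z => cls z = cls y)).card

/-- group of `y` -/
def grp (y : ℕ) : Option ℤ × ℕ := (cls y, rk cls y / M)

lemma rk_lt {y z : ℕ} (h : y < z) (hc : cls y = cls z) : rk cls y < rk cls z := by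
  unfold rk
  apply Finset.card_lt_card
  rw [Finset.ssubset_iff_of_subset]
  · refine ⟨y, ?_, ?_⟩
    · simp [h, hc]
    · simp
  · intro w hw
    simp only [Finset.mem_filter, Finset.mem_range] at hw ⊢
    exact ⟨by omega, by rw [hw.2, hc]⟩

lemma rk_inj {y z : ℕ} (hc : cls y = cls z) (h : rk cls y = rk cls z) : y = z := by
  rcases lt_trichotomy y z with h1 | h1 | h1
  · have := rk_lt cls h1 hc
    omega
  · exact h1
  · have := rk_lt cls h1 hc.symm
    omega

lemma card_grp_le (hM : 0 < M) (s : Finset ℕ) (a : Option ℤ × ℕ) :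
    (s.filter (fun y => grp cls M y = a)).card ≤ M := by
  have : (s.filter (fun y => grp cls M y = a)).card ≤ (Finset.Ico (a.2 * M) (a.2 * M + M)).card := by
    apply Finset.card_le_card_of_injOn (rk cls)
    · intro y hy
      simp only [Finset.coe_filter, Set.mem_ofPred_eq] at hy
      have h2 : rk cls y / M = a.2 := by rw [← hy.2]; rfl
      simp only [Finset.coe_Ico, Set.mem_Ico]
      rw [← h2]
      constructor
      · exact Nat.div_mul_le_self _ _
      · have := Nat.lt_div_mul_add (a := rk cls y) hM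
        omega
    · intro y hy z hz h
      simp only [Finset.coe_filter, Set.mem_ofPred_eq] at hy hz
      have h2 : cls y = cls z := by
        have h3 : grp cls M y = grp cls M z := by rw [hy.2, hz.2]
        exact congrArg Prod.fst h3
      exact rk_inj cls h2 h
  simpa using this

lemma exists_selector (hM : 0 < M) (X : Finset ℕ) (F : ℕ → Finset ℕ)
    (hd : ∀ x ∈ X, ∀ y ∈ X, x ≠ y → Disjoint (F x) (F y)) (hc : ∀ x ∈ X, M ≤ (F x).card) :
    ∃ A : Finset ℕ, (∀ y ∈ A, ∃ x ∈ X, y ∈ F x) ∧ (∀ x ∈ X, ∃ y ∈ A, y ∈ F x) ∧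
      ∀ y ∈ A, ∀ z ∈ A, grp cls M y = grp cls M z → y = z := by
  classical
  let t : {x // x ∈ X} → Finset (Option ℤ × ℕ) := fun x => (F x.1).image (grp cls M)
  have hall : ∀ s : Finset {x // x ∈ X}, s.card ≤ (s.biUnion t).card := by
    intro s
    have h1 : (s.biUnion (fun x => F x.1)).card = ∑ x ∈ s, (F x.1).card := by
      apply Finset.card_biUnion
      intro x _ y _ hxy
      exact hd x.1 x.2 y.1 y.2 (fun h => hxy (Subtype.ext h))
    have h2 : s.card * M ≤ (s.biUnion (fun x => F x.1)).card := by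
      rw [h1]
      calc s.card * M = ∑ x ∈ s, M := by simp
        _ ≤ _ := Finset.sum_le_sum (fun x _ => hc x.1 x.2)
    have h3 : (s.biUnion (fun x => F x.1)).card ≤
        M * ((s.biUnion (fun x => F x.1)).image (grp cls M)).card := by
      apply Finset.card_le_mul_card_image
      intro a _
      exact card_grp_le cls M hM _ a
    have h4 : (s.biUnion (fun x => F x.1)).image (grp cls M) = s.biUnion t := by
      ext a
      simp only [Finset.mem_image, Finset.mem_biUnion, t]
      constructor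
      · rintro ⟨y, ⟨x, hx, hy⟩, rfl⟩
        exact ⟨x, hx, y, hy, rfl⟩
      · rintro ⟨x, hx, y, hy, rfl⟩
        exact ⟨y, ⟨x, hx, hy⟩, rfl⟩
    rw [h4] at h3
    have h5 : s.card * M ≤ (s.biUnion t).card * M := by
      rw [mul_comm (s.biUnion t).card]
      exact h2.trans h3
    exact Nat.le_of_mul_le_mul_right h5 hM
  obtain ⟨g, hginj, hg⟩ := (Finset.all_card_le_biUnion_card_iff_exists_injective t).1 hall
  have hsel : ∀ x : {x // x ∈ X}, ∃ y ∈ F x.1, grp cls M y = g x := by
    intro x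
    have := hg x
    simpa [t] using this
  choose s hs1 hs2 using hsel
  refine ⟨Finset.univ.image s, ?_, ?_, ?_⟩
  · intro y hy
    simp only [Finset.mem_image, Finset.mem_univ, true_and] at hy
    obtain ⟨x, rfl⟩ := hy
    exact ⟨x.1, x.2, hs1 x⟩
  · intro x hx
    exact ⟨s ⟨x, hx⟩, by simp, hs1 ⟨x, hx⟩⟩
  · intro y hy z hz h
    simp only [Finset.mem_image, Finset.mem_univ, true_and] at hy hz
    obtain ⟨x, rfl⟩ := hy
    obtain ⟨x', rfl⟩ := hz
    rw [hs2, hs2] at h
    rw [hginj h]

/-- elements of the class `c` below `k` selected by `A`, where the groups are hit at most once -/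
lemma card_sel_le (A : Finset ℕ) (hA : ∀ y ∈ A, ∀ z ∈ A, grp cls M y = grp cls M z → y = z)
    (k : ℕ) (c : Option ℤ) :
    (A.filter (fun y => y < k ∧ cls y = c)).card ≤
      ((range k).filter (fun z => cls z = c)).card / M + 1 := by
  have : (A.filter (fun y => y < k ∧ cls y = c)).card ≤
      (Finset.range (((range k).filter (fun z => cls z = c)).card / M + 1)).card := by
    apply Finset.card_le_card_of_injOn (fun y => rk cls y / M)
    · intro y hy
      simp only [Finset.coe_filter, Set.mem_ofPred_eq] at hy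
      simp only [Finset.coe_range, Set.mem_Iio]
      apply Nat.lt_succ_of_le
      apply Nat.div_le_div_right
      unfold rk
      apply Finset.card_le_card
      intro w hw
      simp only [Finset.mem_filter, Finset.mem_range] at hw ⊢
      exact ⟨by omega, by rw [hw.2, hy.2.2]⟩
    · intro y hy z hz h
      simp only [Finset.coe_filter, Set.mem_ofPred_eq] at hy hz
      apply hA y hy.1 z hz.1
      unfold grp
      simp only at h
      rw [h, hy.2.2, hz.2.2]
  simpa using this

end Selector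

/-- class of `y` by weight -/
noncomputable def wcls (f : ℕ → ℝ) (y : ℕ) : Option ℤ :=
  if f y = 0 then none else some (Int.log 2 (f y))

lemma sum_zpow_lt (C : Finset ℤ) : ∀ b : ℤ, (∀ c ∈ C, c ≤ b) →
    ∑ c ∈ C, (2 : ℝ) ^ c < 2 ^ (b + 1) := by
  induction C using Finset.induction_on_max with
  | empty => intro b _; simpa using zpow_pos (by norm_num : (0 : ℝ) < 2) (b + 1)
  | insert a C ha ih =>
    intro b hb
    have hnot : a ∉ C := fun h => lt_irrefl _ (ha a h)
    rw [Finset.sum_insert hnot]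
    have h1 := ih (a - 1) (fun c hc => by have := ha c hc; omega)
    have h2 : a ≤ b := hb a (by simp)
    have h3 : (2 : ℝ) ^ (a - 1 + 1) = 2 ^ a := by congr 1; omega
    rw [h3] at h1
    have h4 : (2 : ℝ) ^ (a + 1) = 2 ^ a * 2 := by rw [zpow_add₀ (by norm_num), zpow_one]
    have h5 : (2 : ℝ) ^ (a + 1) ≤ 2 ^ (b + 1) := zpow_le_zpow_right₀ (by norm_num) (by omega)
    linarith


lemma sum_zpow_le (C : Finset ℤ) (m : ℝ) (hm : 0 ≤ m) (h : ∀ c ∈ C, (2 : ℝ) ^ c ≤ m) :
    ∑ c ∈ C, (2 : ℝ) ^ c ≤ 2 * m := by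
  rcases C.eq_empty_or_nonempty with rfl | hne
  · simpa using hm
  · obtain ⟨b, hb, hmax⟩ := C.exists_max_image id hne
    have h1 := sum_zpow_lt C b (fun c hc => hmax c hc)
    have h2 := h b hb
    have h4 : (2 : ℝ) ^ (b + 1) = 2 ^ b * 2 := by rw [zpow_add₀ (by norm_num), zpow_one]
    linarith

lemma sel_weight_le (f : ℕ → ℝ) (hf : ∀ n, 0 ≤ f n) (M : ℕ) (hM : 0 < M) (A : Finset ℕ)
    (hA : ∀ y ∈ A, ∀ z ∈ A, grp (wcls f) M y = grp (wcls f) M z → y = z)
    (k : ℕ) (m : ℝ) (hm : 0 ≤ m) (hfm : ∀ y < k, f y ≤ m) :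
    ∑ y ∈ A.filter (fun y => y < k), f y ≤ 2 / M * ∑ y ∈ range k, f y + 4 * m := by
  classical
  set Cs : Finset (Option ℤ) := ((range k).filter (fun y => f y ≠ 0)).image (wcls f) with hCs
  have hMr : (0 : ℝ) < M := by exact_mod_cast hM
  have key : ∀ y, f y ≠ 0 → ∀ c, wcls f y = c → ∃ b : ℤ, c = some b ∧ (2 : ℝ) ^ b ≤ f y ∧
      f y < 2 ^ (b + 1) := by
    intro y hy c hc
    have hpos : 0 < f y := lt_of_le_of_ne (hf y) (Ne.symm hy)
    refine ⟨Int.log 2 (f y), ?_, ?_, ?_⟩
    · rw [← hc]; simp [wcls, hy]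
    · exact_mod_cast Int.zpow_log_le_self (b := 2) (by norm_num) hpos
    · exact_mod_cast Int.lt_zpow_succ_log_self (b := 2) (by norm_num) (f y)
  -- weight function of a class
  let w : Option ℤ → ℝ := fun c => c.elim 0 (fun b => (2 : ℝ) ^ b)
  have hw0 : ∀ c, 0 ≤ w c := by
    intro c; cases c with
    | none => simp [w]
    | some b => simp [w]; positivity
  have hwle : ∀ y, f y ≠ 0 → w (wcls f y) ≤ f y ∧ f y ≤ 2 * w (wcls f y) := by
    intro y hy
    obtain ⟨b, hb, h1, h2⟩ := key y hy _ rfl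
    rw [hb]
    refine ⟨h1, ?_⟩
    have h4 : (2 : ℝ) ^ (b + 1) = 2 ^ b * 2 := by rw [zpow_add₀ (by norm_num), zpow_one]
    have : w (some b) = 2 ^ b := rfl
    rw [this]
    linarith
  have hwle' : ∀ y, w (wcls f y) ≤ f y := by
    intro y
    by_cases hy : f y = 0
    · have : wcls f y = none := by simp [wcls, hy]
      rw [this, hy]; simp [w]
    · exact (hwle y hy).1
  -- step 1
  have s1 : ∑ y ∈ A.filter (fun y => y < k), f y =
      ∑ y ∈ (A.filter (fun y => y < k)).filter (fun y => f y ≠ 0), f y := by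
    rw [Finset.sum_filter_ne_zero]
  have s2 : ∑ y ∈ (A.filter (fun y => y < k)).filter (fun y => f y ≠ 0), f y =
      ∑ c ∈ Cs, ∑ y ∈ ((A.filter (fun y => y < k)).filter (fun y => f y ≠ 0)).filter
        (fun y => wcls f y = c), f y := by
    rw [Finset.sum_fiberwise_of_maps_to]
    intro y hy
    simp only [Finset.mem_filter] at hy
    simp only [hCs, Finset.mem_image, Finset.mem_filter, Finset.mem_range]
    exact ⟨y, ⟨hy.1.2, hy.2⟩, rfl⟩
  have s3 : ∀ c ∈ Cs, ∑ y ∈ ((A.filter (fun y => y < k)).filter (fun y => f y ≠ 0)).filter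
        (fun y => wcls f y = c), f y ≤
        (((range k).filter (fun z => wcls f z = c)).card / M + 1) * (2 * w c) := by
    intro c _
    have h1 : ∑ y ∈ ((A.filter (fun y => y < k)).filter (fun y => f y ≠ 0)).filter
        (fun y => wcls f y = c), f y ≤ ∑ y ∈ ((A.filter (fun y => y < k)).filter
        (fun y => f y ≠ 0)).filter (fun y => wcls f y = c), (2 * w c) := by
      apply Finset.sum_le_sum
      intro y hy
      simp only [Finset.mem_filter] at hy
      rw [← hy.2]
      exact (hwle y hy.1.2).2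
    rw [Finset.sum_const, nsmul_eq_mul] at h1
    refine h1.trans ?_
    apply mul_le_mul_of_nonneg_right _ (by have := hw0 c; linarith)
    have h2 : (((A.filter (fun y => y < k)).filter (fun y => f y ≠ 0)).filter
        (fun y => wcls f y = c)).card ≤ (A.filter (fun y => y < k ∧ wcls f y = c)).card := by
      apply Finset.card_le_card
      intro y hy
      simp only [Finset.mem_filter] at hy ⊢
      exact ⟨hy.1.1.1, hy.1.1.2, hy.2⟩
    have h3 := h2.trans (card_sel_le (wcls f) M A hA k c)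
    have h4 : (((((A.filter (fun y => y < k)).filter (fun y => f y ≠ 0)).filter
        (fun y => wcls f y = c)).card : ℕ) : ℝ) ≤
        ((((range k).filter (fun z => wcls f z = c)).card / M + 1 : ℕ) : ℝ) := by
      exact_mod_cast h3
    refine h4.trans ?_
    push_cast
    have := @Nat.cast_div_le ℝ _ _ _ (((range k).filter (fun z => wcls f z = c)).card) M
    linarith
  have s4 : ∑ c ∈ Cs, ((((range k).filter (fun z => wcls f z = c)).card : ℝ) / M + 1) * (2 * w c)
      = 2 / M * ∑ c ∈ Cs, (((range k).filter (fun z => wcls f z = c)).card : ℝ) * w c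
        + 2 * ∑ c ∈ Cs, w c := by
    rw [Finset.mul_sum, Finset.mul_sum, ← Finset.sum_add_distrib]
    apply Finset.sum_congr rfl
    intro c _
    field_simp
  have s5 : ∑ c ∈ Cs, (((range k).filter (fun z => wcls f z = c)).card : ℝ) * w c ≤
      ∑ y ∈ range k, f y := by
    have h1 : ∀ c ∈ Cs, (((range k).filter (fun z => wcls f z = c)).card : ℝ) * w c ≤
        ∑ y ∈ (range k).filter (fun z => wcls f z = c), f y := by
      intro c _
      rw [← nsmul_eq_mul, ← Finset.sum_const]
      apply Finset.sum_le_sum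
      intro y hy
      simp only [Finset.mem_filter] at hy
      rw [← hy.2]
      exact hwle' y
    refine (Finset.sum_le_sum h1).trans ?_
    have h2 : ∑ c ∈ Cs, ∑ y ∈ (range k).filter (fun z => wcls f z = c), f y ≤
        ∑ c ∈ (range k).image (wcls f), ∑ y ∈ (range k).filter (fun z => wcls f z = c), f y := by
      apply Finset.sum_le_sum_of_subset_of_nonneg
      · rw [hCs]
        exact Finset.image_subset_image (Finset.filter_subset _ _)
      · intro c _ _
        exact Finset.sum_nonneg (fun y _ => hf y)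
    refine h2.trans (le_of_eq ?_)
    rw [Finset.sum_fiberwise_of_maps_to]
    intro y hy
    exact Finset.mem_image_of_mem _ hy
  have s6 : ∑ c ∈ Cs, w c ≤ 2 * m := by
    -- pass to integers
    let Cz : Finset ℤ := ((range k).filter (fun y => f y ≠ 0)).image (fun y => Int.log 2 (f y))
    have h1 : Cs = Cz.image some := by
      rw [hCs, Finset.image_image]
      apply Finset.image_congr
      intro y hy
      simp only [Finset.coe_filter, Set.mem_ofPred_eq] at hy
      simp [wcls, hy.2]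
    rw [h1, Finset.sum_image (by intro a _ b _ h; exact Option.some_injective _ h)]
    apply sum_zpow_le Cz m hm
    intro c hc
    simp only [Cz, Finset.mem_image, Finset.mem_filter, Finset.mem_range] at hc
    obtain ⟨y, ⟨hy, hy2⟩, rfl⟩ := hc
    obtain ⟨b, hb, h1, h2⟩ := key y hy2 _ rfl
    have : b = Int.log 2 (f y) := by
      have : wcls f y = some (Int.log 2 (f y)) := by simp [wcls, hy2]
      rw [this] at hb
      exact (Option.some_injective _ hb).symm
    rw [← this]
    exact h1.trans (hfm y hy)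
  rw [s1, s2]
  refine (Finset.sum_le_sum s3).trans ?_
  rw [s4]
  have h7 : (2 : ℝ) / M * ∑ c ∈ Cs, (((range k).filter (fun z => wcls f z = c)).card : ℝ) * w c ≤
      2 / M * ∑ y ∈ range k, f y := mul_le_mul_of_nonneg_left s5 (by positivity)
  linarith


lemma sum_nonneg' {f : ℕ → ℝ} (hf : ∀ n, 0 ≤ f n) (k : ℕ) : 0 ≤ ∑ i ∈ range k, f i :=
  Finset.sum_nonneg (fun i _ => hf i)

lemma exists_K {f : ℕ → ℝ} (hf : IsEUWeight f) (ε : ℝ) (hε : 0 < ε) (N : ℕ) :
    ∃ K : ℕ, N ≤ K ∧ ∀ k, K ≤ k → ∀ y < k, f y ≤ ε * ∑ i ∈ range k, f i := by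
  obtain ⟨h0, h1, h2⟩ := hf
  have hmono : Monotone (fun k : ℕ => ∑ i ∈ range k, f i) := by
    intro a b hab
    apply Finset.sum_le_sum_of_subset_of_nonneg
    · exact Finset.range_mono hab
    · intro i _ _; exact h0 i
  have h3 : ∀ᶠ n : ℕ in atTop, f n / ∑ i ∈ range (n + 1), f i < ε :=
    (tendsto_order.1 h2).2 ε hε
  have h4 : ∀ᶠ n : ℕ in atTop, (0 : ℝ) < ∑ i ∈ range n, f i :=
    h1.eventually_gt_atTop 0
  obtain ⟨n0, hn0⟩ := Filter.eventually_atTop.1 (h3.and h4)
  have h5 : ∀ᶠ k : ℕ in atTop, (∑ i ∈ range n0, f i) / ε ≤ ∑ i ∈ range k, f i :=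
    h1.eventually_ge_atTop _
  obtain ⟨n1, hn1⟩ := Filter.eventually_atTop.1 h5
  refine ⟨max N (max n0 n1), le_max_left _ _, ?_⟩
  intro k hk y hy
  have hkn0 : n0 ≤ k := le_trans (le_trans (le_max_left _ _) (le_max_right _ _)) hk
  have hkn1 : n1 ≤ k := le_trans (le_trans (le_max_right _ _) (le_max_right _ _)) hk
  by_cases hy0 : n0 ≤ y
  · have h6 := (hn0 y hy0).1
    have h7 := (hn0 (y + 1) (by omega)).2
    rw [div_lt_iff₀ h7] at h6
    have h8 : ∑ i ∈ range (y + 1), f i ≤ ∑ i ∈ range k, f i := hmono (by omega)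
    exact h6.le.trans (mul_le_mul_of_nonneg_left h8 hε.le)
  · push Not at hy0
    have h6 := hn1 k hkn1
    rw [div_le_iff₀ hε] at h6
    have h7 : f y ≤ ∑ i ∈ range n0, f i :=
      Finset.single_le_sum (fun i _ => h0 i) (Finset.mem_range.2 hy0)
    linarith

lemma exists_block {f : ℕ → ℝ} (hf : IsEUWeight f) (π : ℕ → ℕ) (F : ℕ → Finset ℕ)
    (hF : ∀ x y, y ∈ F x ↔ π y = x) (hcard : ∀ x, x ≤ (F x).card) (i : ℕ) :
    ∃ (A : Finset ℕ) (m : ℕ), i ≤ m ∧ (∀ y ∈ A, i ≤ y) ∧
      (∀ x, 2 ^ m ≤ x → x < 2 ^ (m + 1) → ∃ y ∈ A, π y = x) ∧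
      ∀ k, ∑ y ∈ A.filter (fun y => y < k), f y ≤ 3 * (1 / 2) ^ i * ∑ j ∈ range k, f j := by
  obtain ⟨K, hiK, hK⟩ := exists_K hf ((1 / 2) ^ i / 4) (by positivity) i
  obtain ⟨m, him, hm⟩ : ∃ m : ℕ, i ≤ m ∧ ∀ y < K, π y < 2 ^ m := by
    obtain ⟨B, hB⟩ := ((range K).image π).bddAbove
    refine ⟨max i (B + 1), le_max_left _ _, ?_⟩
    intro y hy
    have h1 : π y ≤ B := hB (by
      simp only [Finset.coe_image, Finset.coe_range]
      exact Set.mem_image_of_mem _ hy)
    calc π y < B + 1 := by omega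
      _ ≤ max i (B + 1) := le_max_right _ _
      _ ≤ 2 ^ (max i (B + 1)) := Nat.lt_two_pow_self.le
  obtain ⟨A, hA1, hA2, hA3⟩ := exists_selector (wcls f) (2 ^ i) (by positivity)
    (Finset.Ico (2 ^ m) (2 ^ (m + 1))) F (by
      intro x _ y _ hxy
      rw [Finset.disjoint_left]
      intro z hz hz'
      rw [hF] at hz hz'
      exact hxy (hz.symm.trans hz')) (by
      intro x hx
      have h1 := (Finset.mem_Ico.1 hx).1
      calc 2 ^ i ≤ 2 ^ m := Nat.pow_le_pow_right (by norm_num) him
        _ ≤ x := h1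
        _ ≤ _ := hcard x)
  have hAK : ∀ y ∈ A, K ≤ y := by
    intro y hy
    by_contra hlt
    push Not at hlt
    obtain ⟨x, hx, hyx⟩ := hA1 y hy
    rw [hF] at hyx
    have h1 := (Finset.mem_Ico.1 hx).1
    have h2 := hm y hlt
    omega
  refine ⟨A, m, him, fun y hy => hiK.trans (hAK y hy), ?_, ?_⟩
  · intro x h1 h2
    obtain ⟨y, hy, hyF⟩ := hA2 x (Finset.mem_Ico.2 ⟨h1, h2⟩)
    exact ⟨y, hy, (hF x y).1 hyF⟩
  · intro k
    have hS := sum_nonneg' hf.1 k
    by_cases hk : K ≤ k
    · have h1 := sel_weight_le f hf.1 (2 ^ i) (by positivity) A hA3 k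
        ((1 / 2) ^ i / 4 * ∑ j ∈ range k, f j) (by positivity) (hK k hk)
      have h2 : (2 : ℝ) / ((2 ^ i : ℕ) : ℝ) = 2 * (1 / 2) ^ i := by
        push_cast
        rw [one_div, inv_pow]
        ring
      rw [h2] at h1
      linarith
    · push Not at hk
      have h1 : A.filter (fun y => y < k) = ∅ := by
        apply Finset.filter_eq_empty_iff.2
        intro y hy h
        have := hAK y hy
        omega
      rw [h1, Finset.sum_empty]
      positivity

lemma sum_biUnion_le' {f : ℕ → ℝ} (hf : ∀ n, 0 ≤ f n) (s : Finset ℕ) (t : ℕ → Finset ℕ) :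
    ∑ y ∈ s.biUnion t, f y ≤ ∑ i ∈ s, ∑ y ∈ t i, f y := by
  classical
  induction s using Finset.induction_on with
  | empty => simp
  | insert a s ha ih =>
    rw [Finset.biUnion_insert, Finset.sum_insert ha]
    have h := Finset.sum_union_inter (s₁ := t a) (s₂ := s.biUnion t) (f := f)
    have h2 : 0 ≤ ∑ i ∈ t a ∩ s.biUnion t, f i := Finset.sum_nonneg (fun y _ => hf y)
    linarith

open Classical in
/-- for every Erdős–Ulam weight there is a small set meeting all fibers over infinitely many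
dyadic blocks -/
lemma exists_small {f : ℕ → ℝ} (hf : IsEUWeight f) (π : ℕ → ℕ) (F : ℕ → Finset ℕ)
    (hF : ∀ x y, y ∈ F x ↔ π y = x) (hcard : ∀ x, x ≤ (F x).card) :
    ∃ A : Set ℕ, A ∈ EU f ∧ ∀ i : ℕ, ∃ m, i ≤ m ∧
      ∀ x, 2 ^ m ≤ x → x < 2 ^ (m + 1) → x ∈ π '' A := by
  choose A m him hAi hAm hAk using exists_block hf π F hF hcard
  refine ⟨⋃ i, (A i : Set ℕ), ?_, ?_⟩
  · have h0 := hf.1
    have hS := sum_nonneg' hf.1
    let a : ℕ → ℕ → ℝ := fun k i => (∑ y ∈ (A i).filter (fun y => y < k), f y) /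
      ∑ j ∈ range k, f j
    have ha0 : ∀ k i, 0 ≤ a k i := fun k i =>
      div_nonneg (Finset.sum_nonneg (fun y _ => h0 y)) (hS k)
    have hab : ∀ k i, a k i ≤ 3 * (1 / 2) ^ i := by
      intro k i
      rcases (hS k).eq_or_lt with h | h
      · simp only [a, ← h, div_zero]
        positivity
      · rw [div_le_iff₀ h]
        exact hAk i k
    have hsum : Summable (fun i : ℕ => 3 * (1 / 2 : ℝ) ^ i) :=
      (summable_geometric_of_lt_one (by norm_num) (by norm_num)).mul_left 3
    have hlim : Tendsto (fun k => ∑' i, a k i) atTop (𝓝 (∑' _ : ℕ, (0 : ℝ))) := by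
      apply tendsto_tsum_of_dominated_convergence hsum
      · intro i
        apply squeeze_zero (g := fun k => (∑ y ∈ A i, f y) / ∑ j ∈ range k, f j)
        · intro k; exact ha0 k i
        · intro k
          apply div_le_div_of_nonneg_right _ (hS k)
          apply Finset.sum_le_sum_of_subset_of_nonneg (Finset.filter_subset _ _)
          intro y _ _; exact h0 y
        · exact Tendsto.div_atTop tendsto_const_nhds hf.2.1
      · filter_upwards with k i
        rw [Real.norm_of_nonneg (ha0 k i)]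
        exact hab k i
    rw [tsum_zero] at hlim
    refine squeeze_zero (fun k => div_nonneg (Finset.sum_nonneg (fun y _ => h0 y)) (hS k)) ?_ hlim
    intro k
    have hsk : Summable (fun i => a k i) :=
      Summable.of_nonneg_of_le (ha0 k) (hab k) hsum
    refine le_trans ?_ (hsk.sum_le_tsum (range k) (fun i _ => ha0 k i))
    simp only [a]
    rw [← Finset.sum_div]
    apply div_le_div_of_nonneg_right _ (hS k)
    calc ∑ i ∈ (range k).filter (fun i => i ∈ ⋃ i, (A i : Set ℕ)), f i
        ≤ ∑ i ∈ (range k).biUnion (fun i => (A i).filter (fun y => y < k)), f i := by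
          apply Finset.sum_le_sum_of_subset_of_nonneg
          · intro y hy
            simp only [Finset.mem_filter, Finset.mem_range, Set.mem_iUnion, Finset.mem_coe] at hy
            obtain ⟨hyk, i, hi⟩ := hy
            simp only [Finset.mem_biUnion, Finset.mem_filter, Finset.mem_range]
            exact ⟨i, lt_of_le_of_lt (hAi i y hi) hyk, hi, hyk⟩
          · intro y _ _; exact h0 y
      _ ≤ _ := by
          exact sum_biUnion_le' h0 _ _
  · intro i
    refine ⟨m i, him i, ?_⟩
    intro x h1 h2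
    obtain ⟨y, hy, hyx⟩ := hAm i x h1 h2
    exact ⟨y, Set.mem_iUnion.2 ⟨i, hy⟩, hyx⟩


/-! ### Dyadic densities -/

open Classical in
/-- number of elements of `A` in the `m`-th dyadic block -/
noncomputable def cnt (A : Set ℕ) (m : ℕ) : ℕ :=
  ((range (2 ^ m)).filter (fun r => 2 ^ m + r ∈ A)).card

open Classical in
/-- number of elements of `A` below `n` -/
noncomputable def cb (A : Set ℕ) (n : ℕ) : ℕ := ((range n).filter (fun r => r ∈ A)).card

lemma ncard_eq_cb (A : Set ℕ) (n : ℕ) : (A ∩ Set.Iio n).ncard = cb A n := by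
  classical
  unfold cb
  rw [← Set.ncard_coe_finset]
  congr 1
  ext x
  simp [and_comm]

lemma cb_succ (A : Set ℕ) (m : ℕ) : cb A (2 ^ (m + 1)) = cb A (2 ^ m) + cnt A m := by
  classical
  unfold cb cnt
  rw [Finset.card_filter, Finset.card_filter, Finset.card_filter]
  have : 2 ^ (m + 1) = 2 ^ m + 2 ^ m := by ring
  rw [this, Finset.sum_range_add]

lemma cb_mono (A : Set ℕ) {n k : ℕ} (h : n ≤ k) : cb A n ≤ cb A k := by
  classical
  unfold cb
  apply Finset.card_le_card
  apply Finset.filter_subset_filter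
  exact Finset.range_mono h

lemma cnt_le (A : Set ℕ) (m : ℕ) : cnt A m ≤ 2 ^ m := by
  classical
  unfold cnt
  exact (Finset.card_filter_le _ _).trans (by simp)

lemma mem_ZZ_iff (A : Set ℕ) :
    A ∈ ZZ ↔ Tendsto (fun m : ℕ => (cnt A m : ℝ) / 2 ^ m) atTop (𝓝 0) := by
  have e1 : A ∈ ZZ ↔ Tendsto (fun n : ℕ => (cb A n : ℝ) / (n : ℝ)) atTop (𝓝 0) := by
    unfold ZZ
    simp only [Set.mem_ofPred_eq, ncard_eq_cb]
  rw [e1]
  constructor
  · intro h
    have h1 : Tendsto (fun m : ℕ => (cb A (2 ^ (m + 1)) : ℝ) / ((2 ^ (m + 1) : ℕ) : ℝ)) atTop (𝓝 0) := by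
      have h2 : Tendsto (fun m : ℕ => 2 ^ (m + 1)) atTop (atTop : Filter ℕ) := by
        apply Tendsto.comp (g := fun m : ℕ => 2 ^ m)
        · exact tendsto_pow_atTop_atTop_of_one_lt (by norm_num)
        · exact tendsto_add_atTop_nat 1
      exact h.comp h2
    have h3 : Tendsto (fun m : ℕ => 2 * ((cb A (2 ^ (m + 1)) : ℝ) / ((2 ^ (m + 1) : ℕ) : ℝ)))
        atTop (𝓝 0) := by
      simpa using h1.const_mul 2
    refine squeeze_zero (fun m => by positivity) ?_ h3
    intro m
    have h4 : (cnt A m : ℝ) ≤ cb A (2 ^ (m + 1)) := by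
      rw [cb_succ]; push_cast; linarith [Nat.cast_nonneg (α := ℝ) (cb A (2 ^ m))]
    generalize cb A (2 ^ (m + 1)) = c at h4
    push_cast
    have h5 : (0 : ℝ) < 2 ^ m := by positivity
    rw [div_le_iff₀ h5, pow_succ]
    field_simp
    linarith
  · intro h
    rw [Metric.tendsto_atTop]
    intro ε hε
    have h1 : ∀ᶠ m : ℕ in atTop, (cnt A m : ℝ) / 2 ^ m < ε / 4 :=
      (tendsto_order.1 h).2 _ (by linarith)
    obtain ⟨m0, hm0⟩ := Filter.eventually_atTop.1 h1
    -- bound for dyadic powers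
    have h2 : ∀ m, m0 ≤ m → (cb A (2 ^ m) : ℝ) ≤ 2 ^ m0 + ε / 4 * 2 ^ m := by
      intro m hm
      induction m, hm using Nat.le_induction with
      | base =>
        have : cb A (2 ^ m0) ≤ 2 ^ m0 := by
          classical
          unfold cb
          exact (Finset.card_filter_le _ _).trans (by simp)
        have h3 : (cb A (2 ^ m0) : ℝ) ≤ 2 ^ m0 := by exact_mod_cast this
        have h4 : (0 : ℝ) ≤ ε / 4 * 2 ^ m0 := by positivity
        linarith
      | succ m hm ih =>
        rw [cb_succ]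
        push_cast
        have h3 := hm0 m hm
        rw [div_lt_iff₀ (by positivity)] at h3
        rw [pow_succ]
        linarith
    -- choose N
    have h5 : ∀ᶠ n : ℕ in atTop, (2 ^ m0 : ℝ) / (ε / 4) ≤ n :=
      (tendsto_natCast_atTop_atTop (R := ℝ)).eventually_ge_atTop _
    obtain ⟨N, hN⟩ := Filter.eventually_atTop.1 h5
    refine ⟨max N (2 ^ m0), ?_⟩
    intro n hn
    have hnN : N ≤ n := le_trans (le_max_left _ _) hn
    have hn2 : 2 ^ m0 ≤ n := le_trans (le_max_right _ _) hn
    have hnpos : 0 < n := lt_of_lt_of_le (by positivity) hn2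
    have h6 := hN n hnN
    rw [div_le_iff₀ (by positivity)] at h6
    have hlog : m0 ≤ Nat.log 2 n := by
      apply Nat.le_log_of_pow_le (by norm_num) hn2
    have h7 : n ≤ 2 ^ (Nat.log 2 n + 1) := (Nat.lt_pow_succ_log_self (by norm_num) n).le
    have h8 := h2 (Nat.log 2 n + 1) (by omega)
    have h9 : (cb A n : ℝ) ≤ cb A (2 ^ (Nat.log 2 n + 1)) := by
      exact_mod_cast cb_mono A h7
    have h10 : (2 : ℝ) ^ (Nat.log 2 n) ≤ n := by
      exact_mod_cast Nat.pow_log_le_self 2 hnpos.ne'
    have e8 : (2 : ℝ) ^ (Nat.log 2 n + 1) = 2 ^ (Nat.log 2 n) * 2 := pow_succ _ _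
    rw [e8] at h8
    have hnr : (0 : ℝ) < n := by exact_mod_cast hnpos
    rw [Real.dist_eq, sub_zero, abs_of_nonneg (by positivity), div_lt_iff₀ hnr]
    have h11 : ε / 4 * (2 ^ (Nat.log 2 n) * 2) ≤ ε / 4 * (n * 2) := by
      apply mul_le_mul_of_nonneg_left _ (by positivity)
      linarith
    have h12 : 0 < ε * n := by positivity
    linarith

lemma ZZ_mono {A B : Set ℕ} (h : A ⊆ B) (hB : B ∈ ZZ) : A ∈ ZZ := by
  rw [mem_ZZ_iff] at hB ⊢
  refine squeeze_zero (fun m => by positivity) ?_ hB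
  intro m
  apply div_le_div_of_nonneg_right _ (by positivity)
  classical
  unfold cnt
  have : ((range (2 ^ m)).filter (fun r => 2 ^ m + r ∈ A)).card ≤
      ((range (2 ^ m)).filter (fun r => 2 ^ m + r ∈ B)).card := by
    apply Finset.card_le_card
    intro r hr
    simp only [Finset.mem_filter] at hr ⊢
    exact ⟨hr.1, h hr.2⟩
  exact_mod_cast this

lemma ZZ_union {A B : Set ℕ} (hA : A ∈ ZZ) (hB : B ∈ ZZ) : A ∪ B ∈ ZZ := by
  rw [mem_ZZ_iff] at hA hB ⊢
  have h := hA.add hB
  rw [add_zero] at h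
  refine squeeze_zero (fun m => by positivity) ?_ h
  intro m
  rw [← add_div]
  apply div_le_div_of_nonneg_right _ (by positivity)
  classical
  have : cnt (A ∪ B) m ≤ cnt A m + cnt B m := by
    unfold cnt
    refine le_trans ?_ (Finset.card_union_le _ _)
    apply Finset.card_le_card
    intro r hr
    simp only [Finset.mem_filter, Finset.mem_union, Set.mem_union] at hr ⊢
    tauto
  exact_mod_cast this

lemma ZZ_finite {A : Set ℕ} (hA : A.Finite) : A ∈ ZZ := by
  rw [mem_ZZ_iff]
  obtain ⟨B, hB⟩ := hA.bddAbove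
  apply Tendsto.congr' _ tendsto_const_nhds
  filter_upwards [Filter.eventually_ge_atTop (B + 1)] with m hm
  have h1 : B < 2 ^ m := by
    calc B < B + 1 := by omega
      _ ≤ m := hm
      _ ≤ 2 ^ m := Nat.lt_two_pow_self.le
  have : cnt A m = 0 := by
    classical
    unfold cnt
    rw [Finset.card_eq_zero, Finset.filter_eq_empty_iff]
    intro r _ h
    have := hB h
    omega
  rw [this]; simp

lemma not_mem_ZZ {A : Set ℕ} (h : ∀ i : ℕ, ∃ m, i ≤ m ∧
      ∀ x, 2 ^ m ≤ x → x < 2 ^ (m + 1) → x ∈ A) : A ∉ ZZ := by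
  intro hA
  rw [mem_ZZ_iff] at hA
  have h1 : ∀ᶠ m : ℕ in atTop, (cnt A m : ℝ) / 2 ^ m < 1 / 2 :=
    (tendsto_order.1 hA).2 _ (by norm_num)
  obtain ⟨m0, hm0⟩ := Filter.eventually_atTop.1 h1
  obtain ⟨m, hm, hx⟩ := h m0
  have h2 := hm0 m hm
  have h3 : cnt A m = 2 ^ m := by
    classical
    unfold cnt
    rw [Finset.filter_true_of_mem]
    · simp
    · intro r hr
      rw [Finset.mem_range] at hr
      apply hx
      · omega
      · rw [pow_succ]; omega
  rw [h3] at h2
  push_cast at h2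
  rw [div_self (by positivity)] at h2
  norm_num at h2


/-! ### The ideal -/

/-- The counterexample: sets whose image under the integer square root has density zero. -/
def II : Set (Set ℕ) := {A | Nat.sqrt '' A ∈ ZZ}

lemma sqrt_surj : Function.Surjective Nat.sqrt := fun x => ⟨x * x, Nat.sqrt_eq x⟩

lemma isIdeal_II : IsIdealOnNat II := by
  refine ⟨?_, ?_, ?_, ?_⟩
  · intro h
    have h1 : Nat.sqrt '' Set.univ ∈ ZZ := h
    rw [Set.image_univ, sqrt_surj.range_eq] at h1
    exact not_mem_ZZ (fun i => ⟨i, le_rfl, fun x _ _ => Set.mem_univ x⟩) h1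
  · intro A hA
    exact ZZ_finite (hA.image _)
  · intro A B hA hB
    show Nat.sqrt '' (A ∪ B) ∈ ZZ
    rw [Set.image_union]
    exact ZZ_union hA hB
  · intro A B hAB hB
    exact ZZ_mono (Set.image_mono hAB) hB

lemma fiber_sqrt (x : ℕ) : (Nat.sqrt ⁻¹' {x}).Finite := by
  apply (Set.finite_Iio ((x + 1) * (x + 1))).subset
  intro y hy
  simp only [Set.mem_preimage, Set.mem_singleton_iff] at hy
  simp only [Set.mem_Iio]
  rw [← hy]
  exact Nat.lt_succ_sqrt y

lemma RB_ZZ_II : RB ZZ II := by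
  refine ⟨Nat.sqrt, fiber_sqrt, ?_⟩
  intro A
  show A ∈ ZZ ↔ Nat.sqrt '' (Nat.sqrt ⁻¹' A) ∈ ZZ
  rw [Set.image_preimage_eq A sqrt_surj]

/-- decoding of selectors over the `m`-th dyadic block -/
noncomputable def selAux (m c : ℕ) : Option (ℕ → ℕ) :=
  (Encodable.decode₂ (Fin (2 ^ m) → Fin (2 ^ (m + 2))) c).map
    (fun d r => if h : r < 2 ^ m then (d ⟨r, h⟩ : ℕ) else 0)

lemma selAux_finite (m : ℕ) : {c | ∃ g, selAux m c = some g}.Finite := by
  apply (Set.finite_range (fun d : Fin (2 ^ m) → Fin (2 ^ (m + 2)) => Encodable.encode d)).subset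
  rintro c ⟨g, hg⟩
  unfold selAux at hg
  rw [Option.map_eq_some_iff] at hg
  obtain ⟨d, hd, -⟩ := hg
  rw [← Option.mem_def, Encodable.mem_decode₂] at hd
  exact ⟨d, hd⟩

lemma selAux_surj (m : ℕ) (d : ℕ → ℕ) (hd : ∀ r < 2 ^ m, d r < 2 ^ (m + 2)) :
    ∃ c g, selAux m c = some g ∧ ∀ r < 2 ^ m, g r = d r := by
  let d' : Fin (2 ^ m) → Fin (2 ^ (m + 2)) := fun r => ⟨d r, hd r r.2⟩
  refine ⟨Encodable.encode d', fun r => if h : r < 2 ^ m then (d' ⟨r, h⟩ : ℕ) else 0, ?_, ?_⟩
  · unfold selAux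
    rw [Option.map_eq_some_iff]
    refine ⟨d', ?_, rfl⟩
    rw [← Option.mem_def, Encodable.mem_decode₂]
  · intro r hr
    simp [hr, d']

/-- enumeration of all pairs (block, selector) -/
lemma exists_sel : ∃ sel : ℕ → ℕ × (ℕ → ℕ), (∀ n, (sel n).1 ≤ n) ∧
    (∀ m, {n | (sel n).1 = m}.Finite) ∧
    (∀ m (d : ℕ → ℕ), (∀ r < 2 ^ m, d r < 2 ^ (m + 2)) →
      ∃ n, m ≤ n ∧ (sel n).1 = m ∧ ∀ r < 2 ^ m, (sel n).2 r = d r) := by
  classical
  let sel : ℕ → ℕ × (ℕ → ℕ) := fun n =>
    (selAux n.unpair.1 n.unpair.2).elim (n, fun _ => 0) (fun g => (n.unpair.1, g))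
  refine ⟨sel, ?_, ?_, ?_⟩
  · intro n
    simp only [sel]
    cases selAux n.unpair.1 n.unpair.2 with
    | none => exact le_rfl
    | some g => exact Nat.unpair_left_le n
  · intro m
    have hfin : ((fun c => Nat.pair m c) '' {c | ∃ g, selAux m c = some g} ∪ {m}).Finite :=
      ((selAux_finite m).image _).union (Set.finite_singleton _)
    apply hfin.subset
    intro n hn
    simp only [Set.mem_ofPred_eq, sel] at hn
    cases h : selAux n.unpair.1 n.unpair.2 with
    | none =>
      rw [h] at hn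
      right
      exact hn
    | some g =>
      rw [h] at hn
      left
      have hm : n.unpair.1 = m := hn
      subst hm
      exact ⟨n.unpair.2, ⟨g, h⟩, Nat.pair_unpair n⟩
  · intro m d hd
    obtain ⟨c, g, hcg, hg⟩ := selAux_surj m d hd
    have e : sel (Nat.pair m c) = (m, g) := by
      simp only [sel, Nat.unpair_pair]
      rw [hcg]
      rfl
    refine ⟨Nat.pair m c, Nat.left_le_pair _ _, ?_⟩
    rw [e]
    exact ⟨rfl, hg⟩

open Classical in
lemma card_periodic (p : ℕ → Prop) (a q : ℕ) :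
    ((range (q * a)).filter (fun t => p (t % a))).card = q * ((range a).filter p).card := by
  induction q with
  | zero => simp
  | succ q ih =>
    rw [Finset.card_filter] at ih ⊢
    rw [Nat.succ_mul, Finset.sum_range_add, ih, Nat.succ_mul]
    congr 1
    rw [Finset.card_filter]
    apply Finset.sum_congr rfl
    intro t ht
    rw [Finset.mem_range] at ht
    have : (q * a + t) % a = t := by
      rw [Nat.mul_comm, Nat.mul_add_mod, Nat.mod_eq_of_lt ht]
    rw [this]

lemma RB_II_ZZ : RB II ZZ := by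
  classical
  obtain ⟨sel, hs1, hs2, hs3⟩ := exists_sel
  -- the selector function
  let h : ℕ → ℕ → ℕ := fun n r =>
    (2 ^ (sel n).1 + r) * (2 ^ (sel n).1 + r) + (sel n).2 r % (2 * (2 ^ (sel n).1 + r) + 1)
  let φ : ℕ → ℕ := fun y => h (Nat.log 2 y) ((y - 2 ^ (Nat.log 2 y)) % 2 ^ (sel (Nat.log 2 y)).1)
  have hsq : ∀ n r, Nat.sqrt (h n r) = 2 ^ (sel n).1 + r := by
    intro n r
    apply Nat.sqrt_add_eq
    have := Nat.mod_lt ((sel n).2 r) (show 0 < 2 * (2 ^ (sel n).1 + r) + 1 by omega)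
    omega
  have hlog : ∀ y, Nat.log 2 (Nat.sqrt (φ y)) = (sel (Nat.log 2 y)).1 := by
    intro y
    simp only [φ]
    rw [hsq]
    have h1 := Nat.mod_lt (y - 2 ^ (Nat.log 2 y)) (show 0 < 2 ^ (sel (Nat.log 2 y)).1 by positivity)
    apply Nat.log_eq_of_pow_le_of_lt_pow
    · omega
    · rw [pow_succ]; omega
  have hcount : ∀ (A : Set ℕ) n, cnt (φ ⁻¹' A) n =
      2 ^ (n - (sel n).1) * ((range (2 ^ (sel n).1)).filter (fun r => h n r ∈ A)).card := by
    intro A n
    rw [← card_periodic (fun r => h n r ∈ A) (2 ^ (sel n).1) (2 ^ (n - (sel n).1))]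
    unfold cnt
    rw [← pow_add, Nat.sub_add_cancel (hs1 n)]
    congr 1
    apply Finset.filter_congr
    intro r hr
    rw [Finset.mem_range] at hr
    have h1 : Nat.log 2 (2 ^ n + r) = n := by
      apply Nat.log_eq_of_pow_le_of_lt_pow
      · omega
      · rw [pow_succ]; omega
    simp only [Set.mem_preimage, φ, h1, Nat.add_sub_cancel_left]
  have hdens : ∀ (A : Set ℕ) n, (cnt (φ ⁻¹' A) n : ℝ) / 2 ^ n =
      (((range (2 ^ (sel n).1)).filter (fun r => h n r ∈ A)).card : ℝ) / 2 ^ (sel n).1 := by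
    intro A n
    rw [hcount]
    push_cast
    have h1 : (2 : ℝ) ^ n = 2 ^ (n - (sel n).1) * 2 ^ (sel n).1 := by
      rw [← pow_add, Nat.sub_add_cancel (hs1 n)]
    rw [h1]
    field_simp
  refine ⟨φ, ?_, ?_⟩
  · intro w
    have h1 : (Nat.log 2 ⁻¹' {n | (sel n).1 = Nat.log 2 (Nat.sqrt w)}).Finite := by
      obtain ⟨B, hB⟩ := (hs2 (Nat.log 2 (Nat.sqrt w))).bddAbove
      apply (Set.finite_Iio (2 ^ (B + 1))).subset
      intro y hy
      have h2 := hB hy
      simp only [Set.mem_Iio]
      calc y < 2 ^ (Nat.log 2 y + 1) := Nat.lt_pow_succ_log_self (by norm_num) y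
        _ ≤ 2 ^ (B + 1) := Nat.pow_le_pow_right (by norm_num) (by omega)
    apply h1.subset
    intro y hy
    simp only [Set.mem_preimage, Set.mem_singleton_iff] at hy
    simp only [Set.mem_preimage, Set.mem_ofPred_eq]
    rw [← hlog y, hy]
  · intro A
    show Nat.sqrt '' A ∈ ZZ ↔ φ ⁻¹' A ∈ ZZ
    rw [mem_ZZ_iff, mem_ZZ_iff]
    constructor
    · intro hA
      have hm : Tendsto (fun n => (sel n).1) atTop atTop := by
        rw [Filter.tendsto_atTop]
        intro b
        have hfin : {n | ¬ b ≤ (sel n).1}.Finite := by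
          have : {n | ¬ b ≤ (sel n).1} ⊆ ⋃ m ∈ Set.Iio b, {n | (sel n).1 = m} := by
            intro n hn
            simp only [Set.mem_ofPred_eq, not_le] at hn
            simp only [Set.mem_iUnion, Set.mem_Iio, Set.mem_ofPred_eq]
            exact ⟨_, hn, rfl⟩
          exact (Set.Finite.biUnion (Set.finite_Iio b) (fun m _ => hs2 m)).subset this
        obtain ⟨B, hB⟩ := hfin.bddAbove
        filter_upwards [Filter.eventually_gt_atTop B] with n hn
        by_contra hcon
        have := hB hcon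
        omega
      refine squeeze_zero (fun n => by positivity) ?_ (hA.comp hm)
      intro n
      rw [hdens]
      simp only [Function.comp]
      apply div_le_div_of_nonneg_right _ (by positivity)
      have : ((range (2 ^ (sel n).1)).filter (fun r => h n r ∈ A)).card ≤
          cnt (Nat.sqrt '' A) (sel n).1 := by
        unfold cnt
        apply Finset.card_le_card
        intro r hr
        simp only [Finset.mem_filter] at hr ⊢
        exact ⟨hr.1, _, hr.2, hsq n r⟩
      exact_mod_cast this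
    · intro hA
      have hex : ∀ m, ∃ n, m ≤ n ∧ (cnt (Nat.sqrt '' A) m : ℝ) / 2 ^ m ≤
          (cnt (φ ⁻¹' A) n : ℝ) / 2 ^ n := by
        intro m
        let d : ℕ → ℕ := fun r => if hr : ∃ y ∈ A, Nat.sqrt y = 2 ^ m + r then
          hr.choose - (2 ^ m + r) * (2 ^ m + r) else 0
        have hd : ∀ r, (2 ^ m + r ∈ Nat.sqrt '' A) → d r < 2 * (2 ^ m + r) + 1 ∧
            (2 ^ m + r) * (2 ^ m + r) + d r ∈ A := by
          intro r hr
          have hr' : ∃ y ∈ A, Nat.sqrt y = 2 ^ m + r := hr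
          have h1 : d r = hr'.choose - (2 ^ m + r) * (2 ^ m + r) := by
            simp only [d]
            rw [dif_pos hr']
          have h2 := hr'.choose_spec
          generalize hr'.choose = c at h1 h2
          have h3 : (2 ^ m + r) * (2 ^ m + r) ≤ c := by
            have := Nat.sqrt_le c
            rw [h2.2] at this
            exact this
          have h4 : c ≤ (2 ^ m + r) * (2 ^ m + r) + (2 ^ m + r) + (2 ^ m + r) := by
            have := Nat.sqrt_le_add c
            rw [h2.2] at this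
            exact this
          constructor
          · rw [h1]; omega
          · rw [h1, Nat.add_sub_cancel' h3]
            exact h2.1
        have hd0 : ∀ r < 2 ^ m, d r < 2 ^ (m + 2) := by
          intro r hr
          by_cases hr2 : 2 ^ m + r ∈ Nat.sqrt '' A
          · have := (hd r hr2).1
            rw [pow_succ, pow_succ]
            omega
          · have : d r = 0 := by
              simp only [d]
              rw [dif_neg]
              exact hr2
            rw [this]
            positivity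
        obtain ⟨n, hmn, hn1, hn2⟩ := hs3 m d hd0
        refine ⟨n, hmn, ?_⟩
        rw [hdens, hn1]
        apply div_le_div_of_nonneg_right _ (by positivity)
        have : cnt (Nat.sqrt '' A) m ≤
            ((range (2 ^ m)).filter (fun r => h n r ∈ A)).card := by
          unfold cnt
          apply Finset.card_le_card
          intro r hr
          simp only [Finset.mem_filter, Finset.mem_range] at hr ⊢
          refine ⟨hr.1, ?_⟩
          have h5 := hd r hr.2
          simp only [h]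
          rw [hn1, hn2 r hr.1, Nat.mod_eq_of_lt h5.1]
          exact h5.2
        exact_mod_cast this
      choose nn hnn1 hnn2 using hex
      refine squeeze_zero (fun n => by positivity) hnn2 ?_
      have : Tendsto nn atTop atTop := tendsto_atTop_mono hnn1 tendsto_id
      exact hA.comp this

/-- **Main theorem.** There is an ideal on `ℕ` which is Rudin–Blass equivalent to the density
zero ideal, but neither it nor any ideal isomorphic to it by a permutation of `ℕ` is an
Erdős–Ulam ideal. -/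
theorem result : ∃ I : Set (Set ℕ), IsIdealOnNat I ∧ RB I ZZ ∧ RB ZZ I ∧
    ¬ IsErdosUlam I ∧ ∀ e : Equiv.Perm ℕ, ¬ IsErdosUlam {A : Set ℕ | e ⁻¹' A ∈ I} := by
  classical
  have main : ∀ e : Equiv.Perm ℕ, ¬ IsErdosUlam {A : Set ℕ | e ⁻¹' A ∈ II} := by
    rintro e ⟨f, hf, hI⟩
    let π : ℕ → ℕ := fun y => Nat.sqrt (e.symm y)
    have hfib : ∀ x, (π ⁻¹' {x}).Finite := by
      intro x
      have : π ⁻¹' {x} = e.symm ⁻¹' (Nat.sqrt ⁻¹' {x}) := rfl
      rw [this]
      exact (fiber_sqrt x).preimage (e.symm.injective.injOn)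
    let F : ℕ → Finset ℕ := fun x => (hfib x).toFinset
    have hF : ∀ x y, y ∈ F x ↔ π y = x := by
      intro x y
      simp [F]
    have hcard : ∀ x, x ≤ (F x).card := by
      intro x
      have h1 : ((range x).image (fun i => e (x * x + i))).card = x := by
        rw [Finset.card_image_of_injective, Finset.card_range]
        intro a b hab
        have := e.injective hab
        omega
      calc x = ((range x).image (fun i => e (x * x + i))).card := h1.symm
        _ ≤ (F x).card := by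
          apply Finset.card_le_card
          intro y hy
          simp only [Finset.mem_image, Finset.mem_range] at hy
          obtain ⟨i, hi, rfl⟩ := hy
          rw [hF]
          simp only [π, Equiv.symm_apply_apply]
          exact Nat.sqrt_add_eq _ (by omega)
    obtain ⟨A, hA, hA2⟩ := exists_small hf π F hF hcard
    rw [← hI] at hA
    have h1 : Nat.sqrt '' (e ⁻¹' A) ∈ ZZ := hA
    have h2 : Nat.sqrt '' (e ⁻¹' A) = π '' A := by
      ext x
      constructor
      · rintro ⟨y, hy, rfl⟩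
        exact ⟨e y, hy, by simp [π]⟩
      · rintro ⟨y, hy, rfl⟩
        exact ⟨e.symm y, by simpa using hy, rfl⟩
    rw [h2] at h1
    exact not_mem_ZZ hA2 h1
  refine ⟨II, isIdeal_II, RB_II_ZZ, RB_ZZ_II, ?_, main⟩
  intro h
  apply main (Equiv.refl ℕ)
  exact h

end Pool.Agent.Results.MP_8a0632_lc.NotErdosUlam
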